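import Pool.Agent.H60.DR.Base

/-!
# Exponential decay of one block
-/

set_option autoImplicit false
open Filter Topology Set

namespace Pool.Agent.H55.DR

/-- comparison of the energy with the Lyapunov function -/
theorem lyap_comp (μ g γ p q a b : ℝ) (hμ : 16 ≤ μ) (hg : 0 < g) (hγ : γ * μ = g ^ 2)
    (hγ1 : 16 * γ ≤ 1) :
    a ^ 2 + b ^ 2 + μ * (p ^ 2 + q ^ 2) ≤
        2 * (a ^ 2 + b ^ 2 + μ * (p ^ 2 + q ^ 2) + 2 * g * p * q) + g * (a * q - b * p) + a * p -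
          γ / 4 * b * q ∧
      2 * (a ^ 2 + b ^ 2 + μ * (p ^ 2 + q ^ 2) + 2 * g * p * q) + g * (a * q - b * p) + a * p -
          γ / 4 * b * q ≤ 3 * (a ^ 2 + b ^ 2 + μ * (p ^ 2 + q ^ 2)) := by
  have hμ0 : 0 < μ := by linarith
  have hγ0 : 0 < γ := by
    by_contra hcon
    push Not at hcon
    have : γ * μ ≤ 0 := mul_nonpos_of_nonpos_of_nonneg hcon hμ0.le
    nlinarith
  have hg2 : g ^ 2 ≤ μ / 16 := by
    rw [← hγ]
    nlinarith
  have hg1 : g ≤ μ / 16 := by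
    apply le_of_sq_le_sq _ (by linarith)
    nlinarith
  have e1 : |4 * g * p * q| ≤ μ / 8 * (p ^ 2 + q ^ 2) := by
    rw [abs_le]
    have h1 : 0 ≤ (μ / 16 - g) * (p ^ 2 + q ^ 2) := mul_nonneg (by linarith) (by positivity)
    constructor
    · nlinarith [mul_nonneg hg.le (sq_nonneg (p + q))]
    · nlinarith [mul_nonneg hg.le (sq_nonneg (p - q))]
  have e2 : |g * (a * q)| ≤ a ^ 2 / 2 + μ / 32 * q ^ 2 := by
    rw [abs_le]
    have h1 : 0 ≤ (μ / 16 - g ^ 2) * q ^ 2 := mul_nonneg (by linarith) (sq_nonneg q)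
    constructor
    · nlinarith [sq_nonneg (a + g * q)]
    · nlinarith [sq_nonneg (a - g * q)]
  have e3 : |g * (b * p)| ≤ b ^ 2 / 2 + μ / 32 * p ^ 2 := by
    rw [abs_le]
    have h1 : 0 ≤ (μ / 16 - g ^ 2) * p ^ 2 := mul_nonneg (by linarith) (sq_nonneg p)
    constructor
    · nlinarith [sq_nonneg (b + g * p)]
    · nlinarith [sq_nonneg (b - g * p)]
  have e4 : |a * p| ≤ a ^ 2 / 4 + μ / 16 * p ^ 2 := by
    rw [abs_le]
    have h1 : 0 ≤ (μ - 16) * p ^ 2 := mul_nonneg (by linarith) (sq_nonneg p)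
    constructor
    · nlinarith [sq_nonneg (a / 2 + p)]
    · nlinarith [sq_nonneg (a / 2 - p)]
  have e5 : |γ / 4 * b * q| ≤ b ^ 2 / 128 + μ / 2048 * q ^ 2 := by
    rw [abs_le]
    have h1 : 0 ≤ (μ - 16) * q ^ 2 := mul_nonneg (by linarith) (sq_nonneg q)
    have h2 : 0 ≤ (1 / 16 - γ) * (b ^ 2 + q ^ 2) := mul_nonneg (by linarith) (by positivity)
    constructor
    · nlinarith [mul_nonneg hγ0.le (sq_nonneg (b + q))]
    · nlinarith [mul_nonneg hγ0.le (sq_nonneg (b - q))]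
  have hp : 0 ≤ μ * p ^ 2 := by positivity
  have hq : 0 ≤ μ * q ^ 2 := by positivity
  have ha : 0 ≤ a ^ 2 := sq_nonneg a
  have hb : 0 ≤ b ^ 2 := sq_nonneg b
  rw [abs_le] at e1 e2 e3 e4 e5
  constructor
  · nlinarith
  · nlinarith

/-- the derivative of the Lyapunov function -/
theorem lyap_deriv (μ g γ p q a b : ℝ) (hμ : 16 ≤ μ) (hg : 0 < g) (hγ : γ * μ = g ^ 2)
    (hγ1 : 16 * γ ≤ 1) :
    -3 * a ^ 2 - (μ - g ^ 2) * p ^ 2 - 3 / 4 * g ^ 2 * q ^ 2 - γ / 4 * b ^ 2 - g * a * q -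
      g * p * q - a * p + γ / 4 * g * p * q ≤ -(γ / 4) * (a ^ 2 + b ^ 2 + μ * (p ^ 2 + q ^ 2)) := by
  have hμ0 : 0 < μ := by linarith
  have hγ0 : 0 < γ := by
    by_contra hcon
    push Not at hcon
    have : γ * μ ≤ 0 := mul_nonpos_of_nonpos_of_nonneg hcon hμ0.le
    nlinarith
  have hg2 : g ^ 2 ≤ μ / 16 := by
    rw [← hγ]
    nlinarith
  have k1 : γ * μ * (p ^ 2 + q ^ 2) = g ^ 2 * (p ^ 2 + q ^ 2) := by rw [hγ]
  -- `aQ`
  have h1 : 0 ≤ (a + g * q / 2) ^ 2 := sq_nonneg _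
  have h2 : 0 ≤ (p + g * q / 2) ^ 2 := sq_nonneg _
  have h3 : 0 ≤ (a + p) ^ 2 := sq_nonneg _
  have h4 : 0 ≤ (p - g * q / 2) ^ 2 := sq_nonneg _
  have h5 : 0 ≤ (μ / 16 - g ^ 2) * p ^ 2 := mul_nonneg (by linarith) (sq_nonneg p)
  have h6 : 0 ≤ (μ - 16) * p ^ 2 := mul_nonneg (by linarith) (sq_nonneg p)
  have h7 : 0 ≤ (1 / 16 - γ) * a ^ 2 := mul_nonneg (by linarith) (sq_nonneg a)
  have h8 : 0 ≤ γ * (p - g * q / 2) ^ 2 := mul_nonneg hγ0.le h4
  have h9 : 0 ≤ (1 - γ / 4) * (p + g * q / 2) ^ 2 := mul_nonneg (by linarith) h2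
  have h10 : 0 ≤ γ * (g * q) ^ 2 := mul_nonneg hγ0.le (sq_nonneg _)
  have h11 : 0 ≤ p ^ 2 := sq_nonneg p
  have h12 : 0 ≤ γ * p ^ 2 := mul_nonneg hγ0.le h11
  nlinarith

theorem block (μ g γ : ℝ) (p q a b : ℝ → ℝ) (hμ : 16 ≤ μ) (hg : 0 < g) (hγ : γ * μ = g ^ 2)
    (hγ1 : 16 * γ ≤ 1)
    (hp : ∀ t, 0 ≤ t → HasDerivWithinAt p (a t) (Ici 0) t)
    (hq : ∀ t, 0 ≤ t → HasDerivWithinAt q (b t) (Ici 0) t)
    (ha : ∀ t, 0 ≤ t → HasDerivWithinAt a (-μ * p t - g * q t - a t) (Ici 0) t)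
    (hb : ∀ t, 0 ≤ t → HasDerivWithinAt b (-μ * q t - g * p t) (Ici 0) t) (t : ℝ) (ht : 0 ≤ t) :
    a t ^ 2 + b t ^ 2 + μ * (p t ^ 2 + q t ^ 2) ≤
      3 * Real.exp (-(γ / 12) * t) * (a 0 ^ 2 + b 0 ^ 2 + μ * (p 0 ^ 2 + q 0 ^ 2)) := by
  set L : ℝ → ℝ := fun t => 2 * (a t ^ 2 + b t ^ 2 + μ * (p t ^ 2 + q t ^ 2) + 2 * g * p t * q t) +
    g * (a t * q t - b t * p t) + a t * p t - γ / 4 * b t * q t with hL
  set F : ℝ → ℝ := fun t => L t * Real.exp (γ / 12 * t) with hF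
  set L' : ℝ → ℝ := fun t => -3 * a t ^ 2 - (μ - g ^ 2) * p t ^ 2 - 3 / 4 * g ^ 2 * q t ^ 2 -
    γ / 4 * b t ^ 2 - g * a t * q t - g * p t * q t - a t * p t + γ / 4 * g * p t * q t with hL'
  have hLd : ∀ t, 0 ≤ t → HasDerivWithinAt L (L' t) (Ici 0) t := by
    intro t ht
    have h1 := (((((ha t ht).pow 2).add ((hb t ht).pow 2)).add
      ((((hp t ht).pow 2).add ((hq t ht).pow 2)).const_mul μ)).add
      (((hp t ht).const_mul (2 * g)).mul (hq t ht))).const_mul 2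
    have h2 := ((((ha t ht).mul (hq t ht)).sub ((hb t ht).mul (hp t ht))).const_mul g)
    have h3 := (ha t ht).mul (hp t ht)
    have h4 := ((hb t ht).const_mul (γ / 4)).mul (hq t ht)
    have h5 := ((h1.add h2).add h3).sub h4
    refine (h5.congr_deriv ?_).congr_of_eventuallyEq ?_ ?_
    · simp only [hL']
      have k : g ^ 2 = γ * μ := hγ.symm
      simp only [Nat.cast_ofNat, Nat.add_one_sub_one, pow_one]
      linear_combination ((1 / 4) * q t ^ 2) * hγ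
    · filter_upwards with s
      simp only [hL, Pi.add_apply, Pi.mul_apply, Pi.sub_apply, Pi.pow_apply]
    · simp only [hL, Pi.add_apply, Pi.mul_apply, Pi.sub_apply, Pi.pow_apply]
  have hFd : ∀ t, 0 ≤ t → HasDerivWithinAt F
      ((L' t + γ / 12 * L t) * Real.exp (γ / 12 * t)) (Ici 0) t := by
    intro t ht
    have h1 : HasDerivAt (fun t : ℝ => Real.exp (γ / 12 * t))
        (Real.exp (γ / 12 * t) * (γ / 12)) t := by
      have h2 := ((hasDerivAt_id t).const_mul (γ / 12)).exp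
      simpa using h2
    refine ((hLd t ht).mul h1.hasDerivWithinAt).congr_deriv ?_
    ring
  have hμ0 : 0 < μ := by linarith
  have hγ0 : 0 < γ := by
    by_contra hcon
    push Not at hcon
    have : γ * μ ≤ 0 := mul_nonpos_of_nonpos_of_nonneg hcon hμ0.le
    nlinarith
  have hneg : ∀ t, L' t + γ / 12 * L t ≤ 0 := by
    intro t
    have h1 := lyap_deriv μ g γ (p t) (q t) (a t) (b t) hμ hg hγ hγ1
    have h2 := (lyap_comp μ g γ (p t) (q t) (a t) (b t) hμ hg hγ hγ1).2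
    have h3 := mul_le_mul_of_nonneg_left h2 (by positivity : 0 ≤ γ / 12)
    simp only [hL', hL]
    linarith
  have hanti : AntitoneOn F (Ici 0) := by
    refine antitoneOn_of_hasDerivWithinAt_nonpos (convex_Ici 0)
      (fun t ht => (hFd t ht).continuousWithinAt)
      (fun t ht => (hFd t (interior_subset ht)).mono interior_subset) (fun t ht => ?_)
    exact mul_nonpos_of_nonpos_of_nonneg (hneg t) (Real.exp_pos _).le
  have h1 := hanti (self_mem_Ici (a := (0 : ℝ))) ht ht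
  have h2 := (lyap_comp μ g γ (p t) (q t) (a t) (b t) hμ hg hγ hγ1).1
  have h3 := (lyap_comp μ g γ (p 0) (q 0) (a 0) (b 0) hμ hg hγ hγ1).2
  have h4 : F 0 = L 0 := by simp [hF]
  rw [h4] at h1
  have h5 : L t = F t * Real.exp (-(γ / 12) * t) := by
    simp only [hF]
    rw [mul_assoc, ← Real.exp_add]
    have : γ / 12 * t + -(γ / 12) * t = 0 := by ring
    rw [this, Real.exp_zero, mul_one]
  have h6 : L t ≤ L 0 * Real.exp (-(γ / 12) * t) := by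
    rw [h5]
    exact mul_le_mul_of_nonneg_right h1 (Real.exp_pos _).le
  have h7 : L 0 * Real.exp (-(γ / 12) * t) ≤
      3 * (a 0 ^ 2 + b 0 ^ 2 + μ * (p 0 ^ 2 + q 0 ^ 2)) * Real.exp (-(γ / 12) * t) :=
    mul_le_mul_of_nonneg_right h3 (Real.exp_pos _).le
  calc a t ^ 2 + b t ^ 2 + μ * (p t ^ 2 + q t ^ 2) ≤ L t := h2
    _ ≤ _ := h6
    _ ≤ _ := h7
    _ = _ := by ring

theorem stBlock : Pool.Agent.H60.DR.StBlock :=
  fun μ g γ p q a b hμ hg hγ hγ1 hp hq ha hb t ht => block μ g γ p q a b hμ hg hγ hγ1 hp hq ha hb t ht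

end Pool.Agent.H55.DR
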